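import Mathlib
import Pool.Agent.R171.DM.Pair

/-!
# Duality-map moduli at `ε = 1` and `ε = √2`

For `ε = 1` and `ε = √2` every real normed space of dimension at least two satisfies
`ε ≤ d⁺(ε)`, and every finite-dimensional one also satisfies `d⁻(ε) ≤ ε`.
-/

set_option autoImplicit false

universe u

namespace Pool.Agent.Results.MP_8cc159_an.OneAndSqrtTwo

open Pool.Agent.R171.DM

/-- The norm-one supporting functionals at `x`. -/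
def J {X : Type u} [NormedAddCommGroup X] [NormedSpace ℝ X] (x : X) : Set (StrongDual ℝ X) :=
  {p | ‖p‖ = 1 ∧ p x = 1}

/-- The set of the numbers `‖p₁ - p₂‖`, `pᵢ ∈ J xᵢ`, `‖xᵢ‖ = 1`, `‖x₁ - x₂‖ = ε`. -/
def distSet (X : Type u) [NormedAddCommGroup X] [NormedSpace ℝ X] (ε : ℝ) : Set ℝ :=
  {d | ∃ x₁ x₂ : X, ‖x₁‖ = 1 ∧ ‖x₂‖ = 1 ∧ ‖x₁ - x₂‖ = ε ∧
    ∃ p₁ ∈ J x₁, ∃ p₂ ∈ J x₂, d = ‖p₁ - p₂‖}

/-- `d⁻`, the infimum. -/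
noncomputable def dMinus (X : Type u) [NormedAddCommGroup X] [NormedSpace ℝ X] (ε : ℝ) : ℝ :=
  sInf (distSet X ε)

/-- `d⁺`, the supremum. -/
noncomputable def dPlus (X : Type u) [NormedAddCommGroup X] [NormedSpace ℝ X] (ε : ℝ) : ℝ :=
  sSup (distSet X ε)

/-- For `ε = 1` and `ε = √2`: `ε ≤ d⁺(ε)` in every real normed space of dimension at least two,
and `d⁻(ε) ≤ ε ≤ d⁺(ε)` in every finite-dimensional one; the bounds are witnessed by pairs. -/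
theorem result :
    (∀ (X : Type u) [NormedAddCommGroup X] [NormedSpace ℝ X], 1 < Module.rank ℝ X →
      ∀ ε : ℝ, (ε = 1 ∨ ε = √2) → (∃ d ∈ distSet X ε, ε ≤ d) ∧ ε ≤ dPlus X ε) ∧
    (∀ (X : Type u) [NormedAddCommGroup X] [NormedSpace ℝ X] [FiniteDimensional ℝ X],
      1 < Module.rank ℝ X → ∀ ε : ℝ, (ε = 1 ∨ ε = √2) →
        (∃ d ∈ distSet X ε, d ≤ ε) ∧ dMinus X ε ≤ ε ∧ ε ≤ dPlus X ε) := by
  have key1 : ∀ (X : Type u) [NormedAddCommGroup X] [NormedSpace ℝ X], 1 < Module.rank ℝ X →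
      ∀ ε : ℝ, (ε = 1 ∨ ε = √2) → (∃ d ∈ distSet X ε, ε ≤ d) ∧ ε ≤ dPlus X ε := by
    intro X _ _ hr ε hε
    obtain ⟨x₁, x₂, p₁, p₂, h1, h2, h3, h4, h5, h6, h7, h8⟩ := upper hr hε
    have hmem : ‖p₁ - p₂‖ ∈ distSet X ε :=
      ⟨x₁, x₂, h1, h2, h7, p₁, ⟨h3, h5⟩, p₂, ⟨h4, h6⟩, rfl⟩
    have hbdd : BddAbove (distSet X ε) := by
      refine ⟨2, ?_⟩
      rintro _ ⟨y₁, y₂, -, -, -, q₁, hq₁, q₂, hq₂, rfl⟩
      calc ‖q₁ - q₂‖ ≤ ‖q₁‖ + ‖q₂‖ := norm_sub_le _ _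
        _ = 2 := by rw [hq₁.1, hq₂.1]; norm_num
    exact ⟨⟨_, hmem, h8⟩, le_csSup_of_le hbdd hmem h8⟩
  refine ⟨key1, ?_⟩
  intro X _ _ _ hr ε hε
  obtain ⟨x₁, x₂, p₁, p₂, h1, h2, h3, h4, h5, h6, h7, h8⟩ := lower hr hε
  have hmem : ‖p₁ - p₂‖ ∈ distSet X ε :=
    ⟨x₁, x₂, h1, h2, h7, p₁, ⟨h3, h5⟩, p₂, ⟨h4, h6⟩, rfl⟩
  have hbdd : BddBelow (distSet X ε) := by
    refine ⟨0, ?_⟩
    rintro _ ⟨y₁, y₂, -, -, -, q₁, hq₁, q₂, hq₂, rfl⟩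
    exact norm_nonneg _
  exact ⟨⟨_, hmem, h8⟩, csInf_le_of_le hbdd hmem h8, (key1 X hr ε hε).2⟩

end Pool.Agent.Results.MP_8cc159_an.OneAndSqrtTwo
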