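import Mathlib
import Pool.Agent.R222.DM.Equiv

/-!
# The duality-map moduli compared with the Hilbert space values

`dMinus E ε` and `dPlus E ε` are the infimum and the supremum of `‖p - q‖` over all norm-one
supporting functionals `p`, `q` at unit vectors `x`, `y` with `‖x - y‖ = ε`.

* If a finite-dimensional space is isometric to its dual, both inequalities hold for all `ε`: an
  isometry exchanges the distance of the points and the distance of the functionals, and one point
  can be moved along an arc.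
* In finite dimension the two inequalities are exchanged by duality, and each of them holds for `E`
  or for its dual.
-/

set_option autoImplicit false

open Set

namespace Pool.Agent.Results.MP_8cc159_an.SelfDual

open Pool.Agent.R222.DM

universe u

/-- The two moduli are nondecreasing in finite dimension. -/
theorem monotone_moduli {E : Type u} [NormedAddCommGroup E] [NormedSpace ℝ E]
    [FiniteDimensional ℝ E] (hE : 1 < Module.rank ℝ E) :
    MonotoneOn (dMinus E) (Icc 0 2) ∧ MonotoneOn (dPlus E) (Icc 0 2) := by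
  constructor
  · intro a ha b hb hab
    obtain ⟨x, y, p, q, hx, hy, hxy, hp, hq, e⟩ :=
      (isCompact_dSet (E := E) b).sInf_mem (dSet_nonempty hE hb.1 hb.2)
    change dMinus E a ≤ sInf (dSet E b)
    rw [← e]
    by_cases hpq : p = -q
    · have h2 : ‖p - q‖ = 2 := by
        have : p - q = (-2 : ℝ) • q := by rw [hpq]; module
        rw [this, norm_smul, hq.1]; norm_num
      rw [h2]
      obtain ⟨d, hd⟩ := dSet_nonempty (E := E) hE ha.1 ha.2
      refine (csInf_le (dSet_bdd a).2 hd).trans ?_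
      obtain ⟨x', y', p', q', -, -, -, hp', hq', rfl⟩ := hd
      calc ‖p' - q'‖ ≤ ‖p'‖ + ‖q'‖ := norm_sub_le _ _
        _ = 2 := by rw [hp'.1, hq'.1]; norm_num
    · obtain ⟨w, f, hw, hf, hxw, hle⟩ := move_down (ε := a) hx hy hp hq hpq ha.1
        (by rw [hxy]; exact hab)
      exact (csInf_le (dSet_bdd a).2 ⟨x, w, p, f, hx, hw, hxw, hp, hf, rfl⟩).trans hle
  · intro a ha b hb hab
    obtain ⟨x, y, p, q, hx, hy, hxy, hp, hq, e⟩ :=
      (isCompact_dSet (E := E) a).sSup_mem (dSet_nonempty hE ha.1 ha.2)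
    change sSup (dSet E a) ≤ dPlus E b
    rw [← e]
    by_cases hpq : p = q
    · rw [hpq, sub_self, norm_zero]
      obtain ⟨d, hd⟩ := dSet_nonempty (E := E) hE hb.1 hb.2
      refine le_trans ?_ (le_csSup (dSet_bdd b).1 hd)
      obtain ⟨x', y', p', q', -, -, -, hp', hq', rfl⟩ := hd
      exact norm_nonneg _
    · obtain ⟨w, f, hw, hf, hxw, hle⟩ := move_up (ε := b) hx hy hp hq hpq
        (by rw [hxy]; exact hab) hb.2
      exact hle.trans (le_csSup (dSet_bdd b).1 ⟨x, w, p, f, hx, hw, hxw, hp, hf, rfl⟩)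

/-- Comparison of the duality-map moduli with the values of a Hilbert space. -/
theorem result :
    -- both inequalities for all `ε` in the spaces which are isometric to their dual
    (∀ (E : Type u) [NormedAddCommGroup E] [NormedSpace ℝ E] [FiniteDimensional ℝ E],
      1 < Module.rank ℝ E → Nonempty (E ≃ₗᵢ[ℝ] StrongDual ℝ E) →
      ∀ ε ∈ Icc (0 : ℝ) 2, dMinus E ε ≤ ε ∧ ε ≤ dPlus E ε) ∧
    -- the upper inequality for all `ε` in the spaces which contain such a space
    (∀ (E : Type u) [NormedAddCommGroup E] [NormedSpace ℝ E] (V : Submodule ℝ E)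
      [FiniteDimensional ℝ V], 1 < Module.rank ℝ V → Nonempty (V ≃ₗᵢ[ℝ] StrongDual ℝ V) →
      ∀ ε ∈ Icc (0 : ℝ) 2, ε ≤ dPlus E ε) ∧
    -- the general finite-dimensional space: duality and monotonicity
    (∀ (E : Type u) [NormedAddCommGroup E] [NormedSpace ℝ E] [FiniteDimensional ℝ E],
      1 < Module.rank ℝ E →
      MonotoneOn (dMinus E) (Icc 0 2) ∧ MonotoneOn (dPlus E) (Icc 0 2) ∧
      ∀ ε ∈ Icc (0 : ℝ) 2,
        (dMinus E ε ≤ ε ↔ ε ≤ dPlus (StrongDual ℝ E) ε) ∧
        (ε ≤ dPlus E ε ↔ dMinus (StrongDual ℝ E) ε ≤ ε) ∧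
        (dMinus E ε ≤ ε ∨ dMinus (StrongDual ℝ E) ε ≤ ε) ∧
        (ε ≤ dPlus E ε ∨ ε ≤ dPlus (StrongDual ℝ E) ε)) := by
  refine ⟨?_, ?_, ?_⟩
  · rintro E _ _ _ hE ⟨Φ⟩ ε hε
    exact ⟨dMinus_le ((minus_or hE Φ hε.1 hε.2).elim id id),
      le_dPlus ((plus_or hE Φ hε.1 hε.2).elim id id)⟩
  · rintro E _ _ V _ hV ⟨Φ⟩ ε hε
    exact le_dPlus (plusP_of_subspace V ((plus_or hV Φ hε.1 hε.2).elim id id))
  · intro E _ _ _ hE
    obtain ⟨h1, h2⟩ := monotone_moduli hE
    refine ⟨h1, h2, fun ε hε => ?_⟩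
    have hD := rank_dual hE
    rw [dMinus_le_iff hE hε.1 hε.2, le_dPlus_iff hD hε.1 hε.2, le_dPlus_iff hE hε.1 hε.2,
      dMinus_le_iff hD hε.1 hε.2]
    exact ⟨minusP_iff hE hε.1 hε.2, plusP_iff hE hε.1 hε.2,
      minus_or hE (LinearIsometryEquiv.refl ℝ _) hε.1 hε.2,
      plus_or hE (LinearIsometryEquiv.refl ℝ _) hε.1 hε.2⟩

end Pool.Agent.Results.MP_8cc159_an.SelfDual
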